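import Mathlib

set_option autoImplicit false

/-!
# A valuation of a ring as a valuation of a field of quotients
-/

namespace Pool.Agent.U166.NF.CX

open NNReal

universe u

theorem exists_val {B : Type u} [CommRing B] {Q : Type u} [Field Q] {κ : Type} [Field κ]
    (ρ : B →+* Q) (hρ : Function.Injective ρ) (ι : κ →+* Q)
    (hq : ∀ h : κ, ∃ f g : B, g ≠ 0 ∧ ι h * ρ g = ρ f)
    (v : Valuation B ℝ≥0) (hv : ∀ b, v b = 0 → b = 0) :
    ∃ u : Valuation κ ℝ≥0, ∀ (h : κ) (f g : B), ι h * ρ g = ρ f → u h * v g = v f := by
  have : IsDomain B := hρ.isDomain ρ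
  let j : FractionRing B →+* Q := IsFractionRing.lift hρ
  have hj : ∀ a : B, j (algebraMap B (FractionRing B) a) = ρ a := fun a =>
    IsFractionRing.lift_algebraMap hρ a
  have hmem : ∀ h : κ, ∃ z : FractionRing B, j z = ι h := by
    intro h
    obtain ⟨f, g, hg, hfg⟩ := hq h
    have hg0 : ρ g ≠ 0 := fun h0 => hg (hρ (by rw [h0, map_zero]))
    refine ⟨algebraMap B (FractionRing B) f / algebraMap B (FractionRing B) g, ?_⟩
    rw [map_div₀, hj, hj, ← hfg, mul_div_assoc, div_self hg0, mul_one]
  choose z hz using hmem
  let ι' : κ →+* FractionRing B :=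
    { toFun := z
      map_one' := j.injective (by rw [hz, map_one, map_one])
      map_mul' := fun a b => j.injective (by rw [hz, map_mul, map_mul, hz, hz])
      map_zero' := j.injective (by rw [hz, map_zero, map_zero])
      map_add' := fun a b => j.injective (by rw [hz, map_add, map_add, hz, hz]) }
  have hS : nonZeroDivisors B ≤ v.supp.primeCompl := by
    intro b hb hb'
    exact nonZeroDivisors.ne_zero hb (hv b hb')
  refine ⟨(v.extendToLocalization hS (FractionRing B)).comap ι', fun h f g hfg => ?_⟩
  have h1 : ι' h * algebraMap B (FractionRing B) g = algebraMap B (FractionRing B) f := by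
    apply j.injective
    rw [map_mul, hj, hj, ← hfg]
    congr 1
    exact hz h
  have h2 := congrArg (v.extendToLocalization hS (FractionRing B)) h1
  rw [map_mul, Valuation.extendToLocalization_apply_map_apply,
    Valuation.extendToLocalization_apply_map_apply] at h2
  exact h2

end Pool.Agent.U166.NF.CX
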