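import Pool.Agent.R614.NF.Emb

set_option autoImplicit false

/-!
# A discrete valuation whose residue field is not quadratically closed is not tame
-/

namespace Pool.Agent.U166.NF.CX

open Pool.Agent.W882.Nip3 Pool.Agent.TH686.NF Pool.Agent.R614.NF NNReal Polynomial
open Pool.Agent.Results.MP_3554b5_lc.UnramifiedNorms

variable {K : Type} [Field K]

theorem not_tame (P : ValuedPlace K) (ϖ : P.κ) (h0 : P.v ϖ ≠ 0) (h1 : P.v ϖ < 1)
    (h2 : ∀ a : P.κ, a ≠ 0 → ∃ n : ℤ, P.v a = P.v ϖ ^ n)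
    (hchar : ∀ n : ℕ, n ≠ 0 → P.v (n : P.κ) = 1)
    (q : P.κ) (hq : P.v q ≤ 1) (hs : ∀ s : P.κ, P.v s ≤ 1 → ¬ P.v (q - s ^ 2) < 1) :
    ¬ P.TameUpTo 2 := by
  intro H
  obtain ⟨H1, -⟩ := H 2 (by norm_num) le_rfl
  rcases H1 with H1 | H1
  · obtain ⟨c, hc⟩ := H1 ϖ
    have hc0 : c ≠ 0 := by
      rintro rfl
      rw [map_zero, zero_pow two_ne_zero] at hc
      exact h0 hc
    obtain ⟨n, hn⟩ := h2 c hc0
    rw [hn, ← zpow_natCast, ← zpow_mul] at hc
    have hpos : 0 < P.v ϖ := pos_iff_ne_zero.2 h0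
    have h3 : (P.v ϖ) ^ (1 : ℤ) = (P.v ϖ) ^ (n * ((2 : ℕ) : ℤ)) := by rw [zpow_one]; exact hc
    have h4 := (zpow_right_injective₀ hpos h1.ne) h3
    push_cast at h4
    omega
  · apply H1
    let k := IsLocalRing.ResidueField P.v.valuationSubring
    let q' : P.v.valuationSubring := ⟨q, hq⟩
    let qb : k := IsLocalRing.residue _ q'
    haveI hcz : CharZero k := by
      refine charZero_of_inj_zero fun n hn => ?_
      by_contra hn0
      have h5 : IsLocalRing.residue P.v.valuationSubring (n : P.v.valuationSubring) = 0 := by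
        rw [map_natCast]; exact hn
      rw [residue_eq_zero_iff] at h5
      have h6 : ((n : P.v.valuationSubring) : P.κ) = (n : P.κ) := by push_cast; rfl
      rw [h6, hchar n hn0] at h5
      exact lt_irrefl _ h5
    have hns : ∀ b : k, b ^ 2 ≠ qb := by
      intro b hb
      obtain ⟨s, rfl⟩ := IsLocalRing.residue_surjective b
      have h5 : IsLocalRing.residue P.v.valuationSubring (q' - s ^ 2) = 0 := by
        rw [map_sub, map_pow, hb]
        exact sub_self _
      rw [residue_eq_zero_iff] at h5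
      exact hs s.1 s.2 h5
    have hirr : Irreducible (X ^ 2 - C qb : k[X]) :=
      X_pow_sub_C_irreducible_of_prime Nat.prime_two hns
    haveI : Fact (Irreducible (X ^ 2 - C qb : k[X])) := ⟨hirr⟩
    have hne : (X ^ 2 - C qb : k[X]) ≠ 0 := hirr.ne_zero
    haveI : FiniteDimensional k (AdjoinRoot (X ^ 2 - C qb : k[X])) :=
      (AdjoinRoot.powerBasis hne).finite
    refine ⟨AdjoinRoot (X ^ 2 - C qb : k[X]), inferInstance, inferInstance, ?_, ?_⟩
    · exact inferInstance
    · rw [(AdjoinRoot.powerBasis hne).finrank, AdjoinRoot.powerBasis_dim hne,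
        natDegree_X_pow_sub_C]

end Pool.Agent.U166.NF.CX
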