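import Pool.Agent.U166.NF.CX.Pts
import Pool.Agent.U166.NF.CX.Abs
import Pool.Agent.U166.NF.CX.Tame

set_option autoImplicit false

/-!
# Many incomparable wild places
-/

namespace Pool.Agent.U166.NF.CX

open Filter Topology NNReal
open Pool.Agent.W882.Nip3 Pool.Agent.TH686.NF Pool.Agent.R614.NF
open Pool.Agent.Results.MP_3554b5_lc.UnramifiedNorms

/-- the first coordinate -/
def fstFun (W : Set (ℂ × ℂ)) : holomorphicRing W :=
  ⟨fun x => x.1.1, fun p => p.1, fun _ _ => analyticAt_fst, fun _ => rfl⟩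

/-- the second coordinate -/
def sndFun (W : Set (ℂ × ℂ)) : holomorphicRing W :=
  ⟨fun x => x.1.2, fun p => p.2, fun _ _ => analyticAt_snd, fun _ => rfl⟩

/-- `(m t - a)² + b²` in a commutative ring -/
def polR {R : Type} [CommRing R] (m a b : ℤ) (t : R) : R := ((m : R) * t - (a : R)) ^ 2 + (b : R) ^ 2

theorem map_polR {R S : Type} [CommRing R] [CommRing S] (f : R →+* S) (m a b : ℤ) (t : R) :
    f (polR m a b t) = polR m a b (f t) := by
  unfold polR
  simp only [map_add, map_pow, map_sub, map_mul, map_intCast]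

variable {W : Set (ℂ × ℂ)}

theorem intCast_apply (n : ℤ) (x : W) : ((n : holomorphicRing W)).1 x = (n : ℂ) := by
  have h : ((n : holomorphicRing W)).1 = ((n : W → ℂ)) := by push_cast; rfl
  rw [h]; rfl

theorem polR_apply (m a b : ℤ) (t : holomorphicRing W) (x : W) :
    (polR m a b t).1 x = pol m a b (t.1 x) := by
  change (((m : holomorphicRing W)).1 x * t.1 x - ((a : holomorphicRing W)).1 x) ^ 2 +
    (((b : holomorphicRing W)).1 x) ^ 2 = _
  rw [intCast_apply, intCast_apply, intCast_apply]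
  rfl

theorem exists_lift {K : Type} [Field K] (O : ValuationSubring K) {κ : Type} [Field κ]
    (π : O →+* κ) (hπ : Function.Surjective π) (s t : κ) (hst : s * t = 1) :
    ∃ x : K, x ≠ 0 ∧ (∃ h : x ∈ O, π ⟨x, h⟩ = s) ∧ ∃ h : x⁻¹ ∈ O, π ⟨x⁻¹, h⟩ = t := by
  obtain ⟨x, rfl⟩ := hπ s
  have hs : π x ≠ 0 := fun h => by rw [h, zero_mul] at hst; exact zero_ne_one hst
  have hu := isUnit_of_ne O π hπ x hs
  obtain ⟨y, hy⟩ := hu.exists_right_inv
  have hxy : x.1 * y.1 = 1 := congrArg Subtype.val hy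
  have hx0 : x.1 ≠ 0 := by
    intro h
    rw [h, zero_mul] at hxy
    exact zero_ne_one hxy
  have hyx : y.1 = x.1⁻¹ := eq_inv_of_mul_eq_one_right hxy
  have hxi : x.1⁻¹ ∈ O := hyx ▸ y.2
  refine ⟨x.1, hx0, ⟨x.2, rfl⟩, hxi, ?_⟩
  have h1 : π x * π ⟨x.1⁻¹, hxi⟩ = 1 := by
    rw [← map_mul, ← map_one π]
    congr 1
    apply Subtype.ext
    change x.1 * x.1⁻¹ = 1
    exact mul_inv_cancel₀ hx0
  exact mul_left_cancel₀ hs (h1.trans hst.symm)

theorem many_places {K : Type} [Field K] (O : ValuationSubring K) {κ : Type} [Field κ]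
    (π : O →+* κ) (hπ : Function.Surjective π) {Q : Type} [Field Q] (ρ : holomorphicRing W →+* Q)
    (hρ : Function.Injective ρ) (ι : κ →+* Q)
    (hq : ∀ h : κ, ∃ f g : holomorphicRing W, g ≠ 0 ∧ ι h * ρ g = ρ f)
    (hW : IsOpen W) (hW' : IsPreconnected W) (hne : W.Nonempty) (X Y : κ)
    (hX : ι X = ρ (fstFun W)) (hY : ι Y = ρ (sndFun W)) (N : ℕ) :
    ∃ P : Fin N → ValuedPlace K, (Pairwise fun i j => (P i).Incomparable (P j)) ∧
      ∀ i, ¬ (P i).TameUpTo 2 := by
  obtain ⟨⟨z0, w0⟩, h0⟩ := hne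
  obtain ⟨U, V, hU, hV, hz0, hw0, hUV⟩ := isOpen_prod_iff.1 hW z0 w0 h0
  obtain ⟨m, a, b, hm, hb, hc⟩ := exists_ctr hU hz0 N
  obtain ⟨m', a', b', hm', hb', hc'⟩ := exists_ctr hV hw0 1
  obtain ⟨A, hA⟩ : ∃ A : ℤ, A = a' + ((0 : ℕ) : ℤ) := ⟨_, rfl⟩
  have hd : ctr m' A b' ∈ V := by rw [hA]; exact hc' 0 one_pos
  have hp : ∀ i : Fin N, (ctr m (a + ((i : ℕ) : ℤ)) b, ctr m' A b') ∈ W := fun i =>
    hUV ⟨hc i i.2, hd⟩
  choose u hu using fun i => exists_val ρ hρ ι hq (val hW (hp i)) (val_zero hW hW' (hp i))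
  -- values of the polynomials
  have hval : ∀ (i : Fin N) (h : κ) (f : holomorphicRing W), ι h = ρ f →
      u i h = val hW (hp i) f := by
    intro i h f hf
    have h1 := hu i h f 1 (by rw [map_one, mul_one, hf])
    rwa [map_one, mul_one] at h1
  have hT : ∀ i k : Fin N, u i (polR m (a + ((k : ℕ) : ℤ)) b X) =
      E (analyticOrderAt (pol m (a + ((k : ℕ) : ℤ)) b) (ctr m (a + ((i : ℕ) : ℤ)) b)) := by
    intro i k
    rw [hval i _ (polR m (a + ((k : ℕ) : ℤ)) b (fstFun W)) (by rw [map_polR, map_polR, hX])]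
    exact val_fst hW (hp i) _ _ (pol_analytic _ _ _) fun x => polR_apply _ _ _ _ _
  have hT1 : ∀ i : Fin N, u i (polR m (a + ((i : ℕ) : ℤ)) b X) = 1 / 2 := by
    intro i
    rw [hT, pol_order hm hb]
    exact (E_coe 1).trans (pow_one _)
  have hT2 : ∀ i k : Fin N, i ≠ k → u i (polR m (a + ((k : ℕ) : ℤ)) b X) = 1 := by
    intro i k hik
    rw [hT, analyticOrderAt_eq_zero.2 (Or.inr (pol_ne hm ?_))]
    · exact (E_coe 0).trans (pow_zero _)
    · intro h
      apply hik
      have h1 : ((i : ℕ) : ℤ) = ((k : ℕ) : ℤ) := by omega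
      exact Fin.ext (by exact_mod_cast h1)
  have hY1 : ∀ i : Fin N, u i (polR m' A b' Y) = 1 := by
    intro i
    rw [hval i _ (polR m' A b' (sndFun W)) (by rw [map_polR, map_polR, hY])]
    refine val_snd hW (hp i) _ (pol m' A b') (pol_analytic _ _ _) ?_ fun x => polR_apply _ _ _ _ _
    rw [pol_order hm' hb']
    exact ENat.natCast_ne_top 1
  let P : Fin N → ValuedPlace K := fun i =>
    { O := O, κ := κ, field := inferInstance, π := π, surjective := hπ, v := u i }
  refine ⟨P, ?_, ?_⟩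
  · intro i j hij
    set Ti := polR m (a + ((i : ℕ) : ℤ)) b X with hTi
    set Tj := polR m (a + ((j : ℕ) : ℤ)) b X with hTj
    have hTi0 : Ti ≠ 0 := by
      intro h
      have h1 := hT1 i
      rw [← hTi, h, map_zero] at h1
      exact half_pos'.ne h1
    have hTj0 : Tj ≠ 0 := by
      intro h
      have h1 := hT1 j
      rw [← hTj, h, map_zero] at h1
      exact half_pos'.ne h1
    obtain ⟨x, hx0, ⟨h1, h2⟩, h3, h4⟩ := exists_lift O π hπ (Ti / Tj) (Tj / Ti) (by
      rw [div_mul_div_cancel₀ hTj0, div_self hTi0])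
    refine ⟨x, hx0, ⟨h1, ?_⟩, ⟨h3, ?_⟩⟩
    · change u i (π ⟨x, h1⟩) < 1
      rw [h2, map_div₀, hT1 i, hT2 i j hij, div_one]
      exact half_lt
    · change u j (π ⟨x⁻¹, h3⟩) < 1
      rw [h4, map_div₀, hT1 j, hT2 j i hij.symm, div_one]
      exact half_lt
  · intro i
    refine not_tame (P i) (polR m (a + ((i : ℕ) : ℤ)) b X) ?_ ?_ ?_ ?_ (polR m' A b' Y) ?_ ?_
    · change u i _ ≠ 0
      rw [hT1 i]
      exact half_pos'.ne'
    · change u i _ < 1
      rw [hT1 i]
      exact half_lt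
    · intro h hh
      change κ at h
      change ∃ n : ℤ, u i h = u i _ ^ n
      rw [hT1 i]
      obtain ⟨f, g, hg, hfg⟩ := hq h
      have hf : f ≠ 0 := by
        rintro rfl
        rw [map_zero] at hfg
        rcases mul_eq_zero.1 hfg with h1 | h1
        · exact hh (ι.injective (by rw [h1, map_zero]))
        · exact hg (hρ (by rw [h1, map_zero]))
      obtain ⟨k, hk, -⟩ := val_pow hW hW' (hp i) f hf
      obtain ⟨l, hl, -⟩ := val_pow hW hW' (hp i) g hg
      have h1 := hu i h f g hfg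
      rw [hk, hl] at h1
      refine ⟨(k : ℤ) - l, ?_⟩
      rw [zpow_sub₀ half_pos'.ne', zpow_natCast, zpow_natCast, ← h1, mul_div_assoc,
        div_self (pow_pos half_pos' l).ne', mul_one]
    · intro n hn
      change u i ((n : κ)) = 1
      rw [hval i _ (n : holomorphicRing W) (by rw [map_natCast, map_natCast])]
      rw [val_fst hW (hp i) _ (fun _ => (n : ℂ)) analyticOnNhd_const (fun x => by
        have := intCast_apply (W := W) (n : ℤ) x
        push_cast at this
        exact this)]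
      rw [analyticOrderAt_eq_zero.2 (Or.inr (by exact_mod_cast hn))]
      exact (E_coe 0).trans (pow_zero _)
    · change u i _ ≤ 1
      rw [hY1 i]
    · intro s hs
      change κ at s
      change u i s ≤ 1 at hs
      change ¬ u i (polR m' A b' Y - s ^ 2) < 1
      obtain ⟨f, g, hg, hfg⟩ := hq s
      have h1 := hu i s f g hfg
      have h2 : val hW (hp i) f ≤ val hW (hp i) g := by
        rw [← h1]
        exact mul_le_of_le_one_left zero_le hs
      have h3 := key hW hW' (hp i) f g (polR m' A b' (sndFun W)) hg (pol m' A b')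
        (pol_analytic _ _ _) (pol_order hm' hb') (fun x => polR_apply _ _ _ _ _) h2
      intro h4
      apply h3
      have h5 := hu i (polR m' A b' Y - s ^ 2) (polR m' A b' (sndFun W) * g ^ 2 - f ^ 2) (g ^ 2) (by
        rw [map_sub, map_sub, map_mul, map_pow, map_pow, map_pow, map_polR, map_polR, hY, ← hfg]
        ring)
      rw [← h5, map_pow]
      have hg0 : 0 < val hW (hp i) g := pos_iff_ne_zero.2 fun h => hg (val_zero hW hW' (hp i) g h)
      have h6 := mul_lt_mul_of_pos_right h4 (pow_pos hg0 2)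
      rwa [one_mul] at h6

end Pool.Agent.U166.NF.CX
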