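import Pool.Agent.U166.NF.CX.Key

set_option autoImplicit false

/-!
# Centres, and quadratic polynomials with integer coefficients vanishing at them
-/

namespace Pool.Agent.U166.NF.CX

open Filter Topology NNReal

/-- the polynomial `(m z - a)² + b²` -/
noncomputable def pol (m a b : ℤ) (z : ℂ) : ℂ := ((m : ℂ) * z - a) ^ 2 + (b : ℂ) ^ 2

theorem pol_analytic (m a b : ℤ) : AnalyticOnNhd ℂ (pol m a b) Set.univ := by
  intro z _
  unfold pol
  fun_prop

/-- the zero `(a + b i) / m` -/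
noncomputable def ctr (m a b : ℤ) : ℂ := ((a : ℂ) + b * Complex.I) / m

variable {m a b : ℤ}

theorem mul_ctr (hm : m ≠ 0) : (m : ℂ) * ctr m a b = a + b * Complex.I := by
  have h : (m : ℂ) ≠ 0 := by exact_mod_cast hm
  unfold ctr
  field_simp

theorem pol_ctr (hm : m ≠ 0) : pol m a b (ctr m a b) = 0 := by
  unfold pol
  rw [mul_ctr hm]
  have h : (a : ℂ) + b * Complex.I - a = b * Complex.I := by ring
  rw [h, mul_pow, Complex.I_sq]
  ring

theorem pol_order (hm : m ≠ 0) (hb : b ≠ 0) : analyticOrderAt (pol m a b) (ctr m a b) = 1 := by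
  have h : (m : ℂ) ≠ 0 := by exact_mod_cast hm
  have h' : (b : ℂ) ≠ 0 := by exact_mod_cast hb
  apply AnalyticAt.analyticOrderAt_eq_one_of_zero_deriv_ne_zero (pol_analytic m a b _ trivial)
  · exact pol_ctr hm
  · have h1 : HasDerivAt (pol m a b) (2 * ((m : ℂ) * ctr m a b - a) * m) (ctr m a b) := by
      unfold pol
      have h2 : HasDerivAt (fun z : ℂ => (m : ℂ) * z - a) (m : ℂ) (ctr m a b) := by
        simpa using ((hasDerivAt_id (ctr m a b)).const_mul (m : ℂ)).sub_const (a : ℂ)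
      have h3 := (h2.pow 2).add_const ((b : ℂ) ^ 2)
      refine h3.congr_deriv ?_
      norm_num
    rw [h1.deriv, mul_ctr hm]
    have h4 : (a : ℂ) + b * Complex.I - a = b * Complex.I := by ring
    rw [h4]
    exact mul_ne_zero (mul_ne_zero two_ne_zero (mul_ne_zero h' Complex.I_ne_zero)) h

theorem pol_ne (hm : m ≠ 0) {a' : ℤ} (h : a ≠ a') : pol m a b (ctr m a' b) ≠ 0 := by
  unfold pol
  rw [mul_ctr hm]
  have h1 : ((a' : ℂ) + b * Complex.I - a) ^ 2 + (b : ℂ) ^ 2 =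
      (((a' - a : ℤ) : ℂ)) * ((a' - a : ℤ) + 2 * b * Complex.I) := by
    push_cast
    have : ((a' : ℂ) + b * Complex.I - a) ^ 2 + (b : ℂ) ^ 2 =
      (a' - a) ^ 2 + 2 * (a' - a) * (b * Complex.I) + b ^ 2 * (Complex.I ^ 2) + b ^ 2 := by ring
    rw [this, Complex.I_sq]
    ring
  rw [h1]
  have h2 : ((a' - a : ℤ) : ℂ) ≠ 0 := by
    have : a' - a ≠ 0 := sub_ne_zero.2 (Ne.symm h)
    exact_mod_cast this
  refine mul_ne_zero h2 fun h3 => ?_
  have h4 := congrArg Complex.re h3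
  simp at h4
  apply h
  have h5 : (a' : ℝ) = a := by linarith
  exact_mod_cast h5.symm

theorem exists_ctr {U : Set ℂ} (hU : IsOpen U) {z : ℂ} (hz : z ∈ U) (N : ℕ) :
    ∃ m a b : ℤ, m ≠ 0 ∧ b ≠ 0 ∧ ∀ k : ℕ, k < N → ctr m (a + k) b ∈ U := by
  obtain ⟨r, hr, hr'⟩ := Metric.isOpen_iff.1 hU z hz
  obtain ⟨m, hm⟩ := exists_nat_gt ((N + 3 : ℝ) / r)
  have hm0 : (0 : ℝ) < m := lt_trans (by positivity) hm
  have hm1 : (N + 3 : ℝ) < m * r := by
    rw [div_lt_iff₀ hr] at hm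
    exact hm
  obtain ⟨b, hb, hb'⟩ : ∃ b : ℤ, b ≠ 0 ∧ |(b : ℝ) - m * z.im| ≤ 1 := by
    have h1 := Int.floor_le ((m : ℝ) * z.im)
    have h2 := Int.lt_floor_add_one ((m : ℝ) * z.im)
    by_cases h : ⌊(m : ℝ) * z.im⌋ = 0
    · refine ⟨1, one_ne_zero, ?_⟩
      rw [h] at h1 h2
      push_cast at h1 h2 ⊢
      rw [abs_le]
      constructor <;> linarith
    · refine ⟨⌊(m : ℝ) * z.im⌋, h, ?_⟩
      rw [abs_le]
      constructor <;> linarith
  refine ⟨m, ⌊(m : ℝ) * z.re⌋, b, ?_, hb, fun k hk => hr' ?_⟩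
  · have : m ≠ 0 := by
      rintro rfl
      simp at hm0
    exact_mod_cast this
  · have h1 := Int.floor_le ((m : ℝ) * z.re)
    have h2 := Int.lt_floor_add_one ((m : ℝ) * z.re)
    have hmc : (m : ℂ) ≠ 0 := by
      intro h
      have : (m : ℝ) = 0 := by exact_mod_cast h
      exact hm0.ne' this
    rw [Metric.mem_ball, dist_eq_norm]
    have h3 : ctr m (⌊(m : ℝ) * z.re⌋ + k) b - z =
        ((((⌊(m : ℝ) * z.re⌋ : ℝ) + k - m * z.re : ℝ) : ℂ) +
          (((b : ℝ) - m * z.im : ℝ) : ℂ) * Complex.I) / m := by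
      unfold ctr
      have hz' := Complex.re_add_im z
      rw [eq_div_iff hmc, sub_mul]
      push_cast
      rw [div_mul_cancel₀ _ hmc]
      have : z * m = z.re * m + z.im * m * Complex.I := by
        conv_lhs => rw [← hz']
        ring
      rw [this]
      ring
    rw [h3, norm_div, Complex.norm_natCast, div_lt_iff₀ hm0]
    refine lt_of_le_of_lt (norm_add_le _ _) ?_
    rw [norm_mul, Complex.norm_I, mul_one, Complex.norm_real, Complex.norm_real, Real.norm_eq_abs,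
      Real.norm_eq_abs]
    have hkN : (k : ℝ) < N := by exact_mod_cast hk
    have hk0 : (0 : ℝ) ≤ k := Nat.cast_nonneg k
    have h4 : |(⌊(m : ℝ) * z.re⌋ : ℝ) + k - m * z.re| ≤ N + 1 := by
      rw [abs_le]
      constructor <;> linarith
    linarith

variable {W : Set (ℂ × ℂ)} {c d : ℂ}

theorem val_fst (hW : IsOpen W) (hp : (c, d) ∈ W) (f : holomorphicRing W) (R : ℂ → ℂ)
    (hR : AnalyticOnNhd ℂ R Set.univ) (hf : ∀ x : W, f.1 x = R x.1.1) :
    val hW hp f = E (analyticOrderAt R c) := by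
  have h1 : AnalyticOnNhd ℂ (fun p : ℂ × ℂ => R p.1) W := fun p _ =>
    AnalyticAt.comp (g := R) (f := fun p : ℂ × ℂ => p.1) (hR _ trivial) analyticAt_fst
  rw [val_eq hW hp f h1 hf, gord_unique hW h1 hp (n := analyticOrderAt R c)
    (Eventually.of_forall fun w => rfl)]

theorem val_snd (hW : IsOpen W) (hp : (c, d) ∈ W) (f : holomorphicRing W) (R : ℂ → ℂ)
    (hR : AnalyticOnNhd ℂ R Set.univ) (hR' : analyticOrderAt R d ≠ ⊤)
    (hf : ∀ x : W, f.1 x = R x.1.2) :
    val hW hp f = 1 := by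
  have h1 : AnalyticOnNhd ℂ (fun p : ℂ × ℂ => R p.2) W := fun p _ =>
    AnalyticAt.comp (g := R) (f := fun p : ℂ × ℂ => p.2) (hR _ trivial) analyticAt_snd
  have h2 : gord c d (fun p : ℂ × ℂ => R p.2) = 0 := by
    refine gord_unique hW h1 hp ?_
    have h3 : ∀ᶠ w in 𝓝[≠] d, R w ≠ 0 := by
      rcases (hR d trivial).eventually_eq_zero_or_eventually_ne_zero with h | h
      · exact absurd (analyticOrderAt_eq_top.2 h) hR'
      · exact h
    filter_upwards [h3] with w hw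
    rw [analyticOrderAt_eq_zero]
    right
    exact hw
  rw [val_eq hW hp f h1 hf, h2]
  exact (E_coe 0).trans (pow_zero _)

end Pool.Agent.U166.NF.CX
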