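import Pool.Agent.U166.NF.CX.Val

set_option autoImplicit false

/-!
# The residue field of the valuation along `z = c`: some functions of `w` are not squares
-/

namespace Pool.Agent.U166.NF.CX

open Filter Topology NNReal

variable {W : Set (ℂ × ℂ)} {c d : ℂ}

theorem key (hW : IsOpen W) (hW' : IsPreconnected W) (hp : (c, d) ∈ W)
    (f g q : holomorphicRing W) (hg : g ≠ 0) (Q : ℂ → ℂ) (hQ : AnalyticOnNhd ℂ Q Set.univ)
    (hQ1 : analyticOrderAt Q d = 1) (hq : ∀ x : W, q.1 x = Q x.1.2)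
    (h1 : val hW hp f ≤ val hW hp g) :
    ¬ (val hW hp (q * g ^ 2 - f ^ 2) < val hW hp g ^ 2) := by
  intro h2
  obtain ⟨j, hj1, hj2⟩ := val_pow hW hW' hp g hg
  have hG := ext_analytic g
  have hF := ext_analytic f
  set G := ext g with hGdef
  set F := ext f with hFdef
  have hFj : (j : ℕ∞) ≤ gord c d F := by
    rw [← hj2]
    exact le_of_E_le h1
  have hQW : AnalyticOnNhd ℂ (fun p : ℂ × ℂ => Q p.2) W := fun p _ =>
    AnalyticAt.comp (g := Q) (f := fun p : ℂ × ℂ => p.2) (hQ _ trivial) analyticAt_snd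
  have hH : AnalyticOnNhd ℂ ((fun p : ℂ × ℂ => Q p.2) * G ^ 2 - F ^ 2) W :=
    (hQW.mul (hG.pow 2)).sub (hF.pow 2)
  set H : ℂ × ℂ → ℂ := (fun p : ℂ × ℂ => Q p.2) * G ^ 2 - F ^ 2 with hHdef
  have hvH : val hW hp (q * g ^ 2 - f ^ 2) = E (gord c d H) := by
    refine val_eq hW hp _ hH fun x => ?_
    change q.1 x * g.1 x ^ 2 - f.1 x ^ 2 = Q x.1.2 * G x.1 ^ 2 - F x.1 ^ 2
    rw [hq, ext_eq g, ext_eq f]
  have hlt : ((j + j : ℕ) : ℕ∞) < gord c d H := by
    apply lt_of_E_lt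
    rw [← hvH, Nat.cast_add, E_add, ← sq, E_coe, ← hj1]
    exact h2
  have hle : ((j + j + 1 : ℕ) : ℕ∞) ≤ gord c d H := by
    rw [Nat.cast_add, Nat.cast_one]
    exact Order.add_one_le_of_lt hlt
  have hev : ∀ᶠ w in 𝓝[≠] d, Q w * ((P^[j] G) (c, w)) ^ 2 = ((P^[j] F) (c, w)) ^ 2 ∧
      (P^[j] G) (c, w) ≠ 0 := by
    filter_upwards [gord_spec hW hG hp, gord_spec hW hF hp, gord_spec hW hH hp, near_W hW hp]
      with w oG oF oH hw
    rw [hj2] at oG
    have aG := slice_analytic (hG _ hw)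
    have aF := slice_analytic (hF _ hw)
    have aH := slice_analytic (hH _ hw)
    have tG := lead_limit aG (i := j) oG.ge
    have tF := lead_limit aF (i := j) (by rw [oF]; exact hFj)
    have tH := lead_limit aH (i := j + j) (by rw [oH]; exact hlt.le)
    have hz : iteratedDeriv (j + j) (fun z => H (z, w)) c = 0 :=
      (natCast_le_analyticOrderAt_iff_iteratedDeriv_eq_zero (n := j + j + 1) aH).1
        (by rw [oH]; exact hle) (j + j) (by omega)
    rw [hz, zero_div] at tH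
    have t2 := ((tG.pow 2).const_mul (Q w)).sub (tF.pow 2)
    have t3 := tendsto_nhds_unique (tH.congr fun z => by
      change (Q w * G (z, w) ^ 2 - F (z, w) ^ 2) / (z - c) ^ (j + j) =
        Q w * (G (z, w) / (z - c) ^ j) ^ 2 - (F (z, w) / (z - c) ^ j) ^ 2
      rw [div_pow, div_pow, ← mul_div_assoc, div_sub_div_same, ← pow_mul, mul_two]) t2
    rw [iteratedDeriv_slice hW hG j hw, iteratedDeriv_slice hW hF j hw] at t3
    have hfac : ((j.factorial : ℕ) : ℂ) ≠ 0 := by exact_mod_cast j.factorial_ne_zero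
    constructor
    · have t4 := sub_eq_zero.1 t3.symm
      rw [div_pow, div_pow, ← mul_div_assoc] at t4
      exact (div_left_inj' (pow_ne_zero 2 hfac)).1 t4
    · rw [analyticOrderAt_eq_nat_iff_iteratedDeriv_eq_zero aG] at oG
      rw [← iteratedDeriv_slice hW hG j hw]
      exact oG.2
  have aα : AnalyticAt ℂ (fun w => (P^[j] G) (c, w)) d := slice_analytic' (iter_analytic hG j _ hp)
  have aβ : AnalyticAt ℂ (fun w => (P^[j] F) (c, w)) d := slice_analytic' (iter_analytic hF j _ hp)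
  set α : ℂ → ℂ := fun w => (P^[j] G) (c, w) with hα
  set β : ℂ → ℂ := fun w => (P^[j] F) (c, w) with hβ
  have hαtop : analyticOrderAt α d ≠ ⊤ := by
    intro h3
    rw [analyticOrderAt_eq_top] at h3
    obtain ⟨w, hw1, hw2⟩ := (hev.and (h3.filter_mono nhdsWithin_le_nhds)).exists
    exact hw1.2 hw2
  have heq : Q * α ^ 2 =ᶠ[𝓝 d] β ^ 2 :=
    (((hQ d trivial).mul (aα.pow 2)).frequently_eq_iff_eventually_eq (aβ.pow 2)).1
      (hev.mono fun w hw => hw.1).frequently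
  have hord := analyticOrderAt_congr heq
  rw [analyticOrderAt_mul (hQ d trivial) (aα.pow 2), analyticOrderAt_pow aα, analyticOrderAt_pow aβ,
    hQ1] at hord
  rcases h4 : analyticOrderAt α d with _ | m
  · exact hαtop h4
  · rcases h5 : analyticOrderAt β d with _ | n
    · rw [h4, h5] at hord
      have h6 : (2 : ℕ) • (⊤ : ℕ∞) = ⊤ := by simp
      have h7 : (1 : ℕ∞) + 2 • ((m : ℕ) : ℕ∞) = (2 : ℕ) • (⊤ : ℕ∞) := hord
      rw [h6] at h7
      have h8 : (1 : ℕ∞) + 2 • ((m : ℕ) : ℕ∞) = ((1 + 2 * m : ℕ) : ℕ∞) := by push_cast; simp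
      rw [h8] at h7
      exact ENat.natCast_ne_top _ h7
    · rw [h4, h5] at hord
      have h7 : (1 : ℕ∞) + 2 • ((m : ℕ) : ℕ∞) = 2 • ((n : ℕ) : ℕ∞) := hord
      have h8 : (1 : ℕ∞) + 2 • ((m : ℕ) : ℕ∞) = ((1 + 2 * m : ℕ) : ℕ∞) := by push_cast; simp
      have h9 : (2 : ℕ) • ((n : ℕ) : ℕ∞) = ((2 * n : ℕ) : ℕ∞) := by push_cast; simp
      rw [h8, h9] at h7
      have h10 : 1 + 2 * m = 2 * n := by exact_mod_cast h7
      omega

end Pool.Agent.U166.NF.CX
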