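import Mathlib

set_option autoImplicit false

/-!
# The order of an analytic function of two variables along a line `z = c`
-/

namespace Pool.Agent.U166.NF.CX

open Filter Topology

/-- the partial derivative in the first variable -/
noncomputable def P (f : ℂ × ℂ → ℂ) (p : ℂ × ℂ) : ℂ := fderiv ℂ f p (1, 0)

variable {f g : ℂ × ℂ → ℂ} {W : Set (ℂ × ℂ)}

theorem P_analytic (hf : AnalyticOnNhd ℂ f W) : AnalyticOnNhd ℂ (P f) W := by
  intro p hp
  exact ((ContinuousLinearMap.apply ℂ ℂ ((1 : ℂ), (0 : ℂ))).analyticAt _).comp (hf.fderiv p hp)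

theorem iter_analytic (hf : AnalyticOnNhd ℂ f W) (j : ℕ) : AnalyticOnNhd ℂ (P^[j] f) W := by
  induction j with
  | zero => exact hf
  | succ j ih => rw [Function.iterate_succ_apply']; exact P_analytic ih

theorem slice_deriv {z w : ℂ} (hf : AnalyticAt ℂ f (z, w)) :
    HasDerivAt (fun z => f (z, w)) (P f (z, w)) z := by
  have h1 : HasDerivAt (fun z : ℂ => (z, w)) ((1 : ℂ), (0 : ℂ)) z :=
    (hasDerivAt_id z).prodMk (hasDerivAt_const z w)
  exact hf.differentiableAt.hasFDerivAt.comp_hasDerivAt z h1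

theorem near_fst (hW : IsOpen W) {z w : ℂ} (h : (z, w) ∈ W) : ∀ᶠ z' in 𝓝 z, (z', w) ∈ W := by
  have hc : Continuous fun z' : ℂ => (z', w) := by fun_prop
  exact hc.continuousAt.eventually (hW.mem_nhds h)

theorem near_snd (hW : IsOpen W) {z w : ℂ} (h : (z, w) ∈ W) : ∀ᶠ w' in 𝓝 w, (z, w') ∈ W := by
  have hc : Continuous fun w' : ℂ => (z, w') := by fun_prop
  exact hc.continuousAt.eventually (hW.mem_nhds h)

theorem iteratedDeriv_slice (hW : IsOpen W) (hf : AnalyticOnNhd ℂ f W) (j : ℕ) {z w : ℂ}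
    (h : (z, w) ∈ W) : iteratedDeriv j (fun z => f (z, w)) z = (P^[j] f) (z, w) := by
  induction j generalizing z with
  | zero => rw [iteratedDeriv_zero]; rfl
  | succ j ih =>
    rw [iteratedDeriv_succ, Function.iterate_succ_apply']
    have h1 : iteratedDeriv j (fun z => f (z, w)) =ᶠ[𝓝 z] fun z => (P^[j] f) (z, w) := by
      filter_upwards [near_fst hW h] with z' hz' using ih hz'
    rw [h1.deriv_eq]
    exact (slice_deriv (iter_analytic hf j _ h)).deriv

theorem slice_analytic {z w : ℂ} (hf : AnalyticAt ℂ f (z, w)) :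
    AnalyticAt ℂ (fun z => f (z, w)) z := by
  have h1 : AnalyticAt ℂ (fun z : ℂ => (z, w)) z := analyticAt_id.prod analyticAt_const
  exact AnalyticAt.comp (g := f) (f := fun z : ℂ => (z, w)) hf h1

theorem slice_analytic' {z w : ℂ} (hf : AnalyticAt ℂ f (z, w)) :
    AnalyticAt ℂ (fun w => f (z, w)) w := by
  have h1 : AnalyticAt ℂ (fun w : ℂ => (z, w)) w := analyticAt_const.prod analyticAt_id
  exact AnalyticAt.comp (g := f) (f := fun w : ℂ => (z, w)) hf h1

/-! ### leading coefficients in one variable -/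

theorem lead_limit {φ : ℂ → ℂ} {c : ℂ} (hφ : AnalyticAt ℂ φ c) {i : ℕ}
    (h : (i : ℕ∞) ≤ analyticOrderAt φ c) :
    Tendsto (fun z => φ z / (z - c) ^ i) (𝓝[≠] c) (𝓝 (iteratedDeriv i φ c / i.factorial)) := by
  have h1 : AnalyticAt ℂ (fun z => φ (c + z)) 0 := by
    have h2 : AnalyticAt ℂ (fun z : ℂ => c + z) 0 := by fun_prop
    refine AnalyticAt.comp (g := φ) (f := fun z : ℂ => c + z) ?_ h2
    simpa using hφ
  obtain ⟨F, hF, hF'⟩ := h1.exists_eq_sum_add_pow_mul (i + 1)
  have hD : ∀ k, iteratedDeriv k (fun z => φ (c + z)) 0 = iteratedDeriv k φ c := by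
    intro k
    rw [iteratedDeriv_comp_const_add]
    simp
  have hz := (natCast_le_analyticOrderAt_iff_iteratedDeriv_eq_zero hφ).1 h
  have h3 : ∀ z, z ≠ c → φ z / (z - c) ^ i = iteratedDeriv i φ c / i.factorial +
      (z - c) * F (z - c) := by
    intro z hzc
    have h4 := hF' (z - c)
    rw [Finset.sum_range_succ, Finset.sum_eq_zero (fun k hk => by
      rw [hD, hz k (Finset.mem_range.1 hk), smul_zero]), zero_add, hD] at h4
    have h5 : c + (z - c) = z := by ring
    rw [h5] at h4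
    have h6 : z - c ≠ 0 := sub_ne_zero.2 hzc
    rw [h4, smul_eq_mul, smul_eq_mul]
    field_simp
    ring
  have h7 : Tendsto (fun z => iteratedDeriv i φ c / i.factorial + (z - c) * F (z - c)) (𝓝 c)
      (𝓝 (iteratedDeriv i φ c / i.factorial)) := by
    have h8 : ContinuousAt (fun z => iteratedDeriv i φ c / i.factorial + (z - c) * F (z - c)) c := by
      have h9 : ContinuousAt (fun z => F (z - c)) c := by
        have h10 : ContinuousAt (fun z : ℂ => z - c) c := by fun_prop
        refine ContinuousAt.comp (g := F) (f := fun z : ℂ => z - c) ?_ h10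
        rw [sub_self]
        exact hF.continuousAt
      exact continuousAt_const.add ((continuousAt_id.sub continuousAt_const).mul h9)
    have h11 := h8.tendsto
    simpa using h11
  refine (h7.mono_left nhdsWithin_le_nhds).congr' ?_
  filter_upwards [self_mem_nhdsWithin] with z hzc
  exact (h3 z hzc).symm

theorem lead_mul {φ ψ : ℂ → ℂ} {c : ℂ} (hφ : AnalyticAt ℂ φ c) (hψ : AnalyticAt ℂ ψ c) {i j : ℕ}
    (hi : (i : ℕ∞) ≤ analyticOrderAt φ c) (hj : (j : ℕ∞) ≤ analyticOrderAt ψ c) :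
    iteratedDeriv (i + j) (φ * ψ) c / (i + j).factorial =
      (iteratedDeriv i φ c / i.factorial) * (iteratedDeriv j ψ c / j.factorial) := by
  have h1 : ((i + j : ℕ) : ℕ∞) ≤ analyticOrderAt (φ * ψ) c := by
    rw [analyticOrderAt_mul hφ hψ, Nat.cast_add]
    exact add_le_add hi hj
  have h2 := lead_limit (hφ.mul hψ) h1
  have h3 := (lead_limit hφ hi).mul (lead_limit hψ hj)
  refine tendsto_nhds_unique h2 (h3.congr fun z => ?_)
  rw [Pi.mul_apply, pow_add, div_mul_div_comm]

/-! ### the generic order -/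

theorem exists_ord (hW : IsOpen W) (hf : AnalyticOnNhd ℂ f W) {c d : ℂ} (hp : (c, d) ∈ W) :
    (∃ j : ℕ, (∀ᶠ w in 𝓝[≠] d, analyticOrderAt (fun z => f (z, w)) c = j)) ∨
    (∃ r > 0, ∀ w ∈ Metric.ball d r, (c, w) ∈ W ∧ analyticOrderAt (fun z => f (z, w)) c = ⊤) := by
  obtain ⟨r, hr, hrW⟩ := Metric.eventually_nhds_iff_ball.1 (near_snd hW hp)
  have ha : ∀ j, AnalyticOnNhd ℂ (fun w => (P^[j] f) (c, w)) (Metric.ball d r) := fun j w hw =>
    slice_analytic' (iter_analytic hf j _ (hrW w hw))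
  by_cases h : ∃ j, ¬ ∀ᶠ w in 𝓝 d, (P^[j] f) (c, w) = 0
  · left
    classical
    refine ⟨Nat.find h, ?_⟩
    have h1 := Nat.find_spec h
    have h2 : ∀ᶠ w in 𝓝[≠] d, (P^[Nat.find h] f) (c, w) ≠ 0 :=
      ((ha (Nat.find h)) d (Metric.mem_ball_self hr)).eventually_eq_zero_or_eventually_ne_zero.resolve_left
        h1
    have h3 : ∀ᶠ w in 𝓝[≠] d, ∀ i ∈ Finset.range (Nat.find h), (P^[i] f) (c, w) = 0 := by
      refine (Filter.eventually_all_finset _).2 fun i hi => ?_
      have := Nat.find_min h (Finset.mem_range.1 hi)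
      push Not at this
      exact this.filter_mono nhdsWithin_le_nhds
    have h4 : ∀ᶠ w in 𝓝[≠] d, w ∈ Metric.ball d r :=
      nhdsWithin_le_nhds (Metric.ball_mem_nhds d hr)
    filter_upwards [h2, h3, h4] with w hw1 hw2 hw3
    have hw : (c, w) ∈ W := hrW w hw3
    rw [analyticOrderAt_eq_nat_iff_iteratedDeriv_eq_zero (slice_analytic (hf _ hw))]
    refine ⟨fun k hk => ?_, ?_⟩
    · rw [iteratedDeriv_slice hW hf k hw]
      exact hw2 k (Finset.mem_range.2 hk)
    · rw [iteratedDeriv_slice hW hf _ hw]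
      exact hw1
  · right
    push Not at h
    refine ⟨r, hr, fun w hw => ⟨hrW w hw, ?_⟩⟩
    rw [ENat.eq_top_iff_forall_ge]
    intro m
    rw [natCast_le_analyticOrderAt_iff_iteratedDeriv_eq_zero (slice_analytic (hf _ (hrW w hw)))]
    intro i _
    rw [iteratedDeriv_slice hW hf i (hrW w hw)]
    exact (ha i).eqOn_zero_of_preconnected_of_eventuallyEq_zero
      (convex_ball d r).isPreconnected (Metric.mem_ball_self hr) (h i) hw

theorem zero_of_top (hW : IsOpen W) (hW' : IsPreconnected W) (hf : AnalyticOnNhd ℂ f W) {c d : ℂ}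
    (hp : (c, d) ∈ W)
    (h : ∃ r > 0, ∀ w ∈ Metric.ball d r, (c, w) ∈ W ∧
      analyticOrderAt (fun z => f (z, w)) c = ⊤) : ∀ p ∈ W, f p = 0 := by
  obtain ⟨r, hr, h⟩ := h
  obtain ⟨s, hs, hsW⟩ := Metric.mem_nhds_iff.1 (hW.mem_nhds hp)
  have h1 : f =ᶠ[𝓝 (c, d)] 0 := by
    filter_upwards [Metric.ball_mem_nhds (c, d) (lt_min hr hs)] with p hpb
    obtain ⟨z, w⟩ := p
    rw [← ball_prod_same] at hpb
    obtain ⟨hz, hw⟩ := hpb
    change z ∈ Metric.ball c (min r s) at hz
    change w ∈ Metric.ball d (min r s) at hw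
    have hwr : w ∈ Metric.ball d r := Metric.ball_subset_ball (min_le_left _ _) hw
    have hzs : z ∈ Metric.ball c s := Metric.ball_subset_ball (min_le_right _ _) hz
    have hws : w ∈ Metric.ball d s := Metric.ball_subset_ball (min_le_right _ _) hw
    have h2 : AnalyticOnNhd ℂ (fun z => f (z, w)) (Metric.ball c s) := by
      intro z' hz'
      refine slice_analytic (hf _ (hsW ?_))
      rw [← ball_prod_same]
      exact ⟨hz', hws⟩
    have h3 := analyticOrderAt_eq_top.1 (h w hwr).2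
    exact h2.eqOn_zero_of_preconnected_of_eventuallyEq_zero (convex_ball c s).isPreconnected
      (Metric.mem_ball_self hs) h3 hzs
  exact fun p hp' => hf.eqOn_zero_of_preconnected_of_eventuallyEq_zero hW' hp h1 hp'

end Pool.Agent.U166.NF.CX
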