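import Pool.Agent.U166.NF.CX.Slice

set_option autoImplicit false

/-!
# The valuation of an analytic function of two variables along a line `z = c`
-/

namespace Pool.Agent.U166.NF.CX

open Filter Topology NNReal

/-- the ring of the holomorphic functions on the open set `W` -/
def holomorphicRing (W : Set (ℂ × ℂ)) : Subring (W → ℂ) where
  carrier := {f | ∃ g : ℂ × ℂ → ℂ, AnalyticOnNhd ℂ g W ∧ ∀ x : W, f x = g x}
  mul_mem' := by
    rintro a b ⟨g, hg, h1⟩ ⟨k, hk, h2⟩
    refine ⟨g * k, hg.mul hk, fun x => ?_⟩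
    rw [Pi.mul_apply, Pi.mul_apply, h1, h2]
  one_mem' := ⟨fun _ => 1, analyticOnNhd_const, fun _ => rfl⟩
  add_mem' := by
    rintro a b ⟨g, hg, h1⟩ ⟨k, hk, h2⟩
    refine ⟨g + k, hg.add hk, fun x => ?_⟩
    rw [Pi.add_apply, Pi.add_apply, h1, h2]
  zero_mem' := ⟨fun _ => 0, analyticOnNhd_const, fun _ => rfl⟩
  neg_mem' := by
    rintro a ⟨g, hg, h1⟩
    refine ⟨-g, hg.neg, fun x => ?_⟩
    rw [Pi.neg_apply, Pi.neg_apply, h1]

/-! ### powers of one half -/

/-- `n ↦ (1/2)^n`, `⊤ ↦ 0` -/
noncomputable def E (n : ℕ∞) : ℝ≥0 := if n = ⊤ then 0 else (1 / 2) ^ n.toNat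

theorem E_top : E ⊤ = 0 := by simp [E]

theorem E_coe (k : ℕ) : E k = (1 / 2) ^ k := by simp [E]

theorem E_add (a b : ℕ∞) : E (a + b) = E a * E b := by
  induction a using ENat.recTopCoe with
  | top => rw [top_add, E_top, zero_mul]
  | coe a =>
    induction b using ENat.recTopCoe with
    | top => rw [add_top, E_top, mul_zero]
    | coe b => rw [← Nat.cast_add, E_coe, E_coe, E_coe, pow_add]

theorem half_lt : (1 / 2 : ℝ≥0) < 1 := by
  rw [← NNReal.coe_lt_coe]; norm_num

theorem half_pos' : (0 : ℝ≥0) < 1 / 2 := by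
  rw [← NNReal.coe_lt_coe]; norm_num

theorem E_anti {a b : ℕ∞} (h : a ≤ b) : E b ≤ E a := by
  induction b using ENat.recTopCoe with
  | top => rw [E_top]; exact zero_le
  | coe b =>
    induction a using ENat.recTopCoe with
    | top => rw [top_le_iff] at h; exact absurd h (ENat.natCast_ne_top b)
    | coe a =>
      rw [E_coe, E_coe]
      exact pow_le_pow_of_le_one (zero_le) half_lt.le (by exact_mod_cast h)

theorem E_eq_zero {a : ℕ∞} (h : E a = 0) : a = ⊤ := by
  induction a using ENat.recTopCoe with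
  | top => rfl
  | coe a =>
    rw [E_coe] at h
    exact absurd h (pow_pos half_pos' a).ne'

theorem lt_of_E_lt {a b : ℕ∞} (h : E b < E a) : a < b := by
  by_contra hcon
  rw [not_lt] at hcon
  exact absurd (E_anti hcon) (not_le.2 h)

theorem le_of_E_le {a b : ℕ∞} (h : E b ≤ E a) : a ≤ b := by
  induction b using ENat.recTopCoe with
  | top => exact le_top
  | coe b =>
    induction a using ENat.recTopCoe with
    | top =>
      rw [E_top] at h
      exact absurd (E_eq_zero (le_antisymm h (zero_le))) (ENat.natCast_ne_top b)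
    | coe a =>
      by_contra hcon
      rw [not_le] at hcon
      rw [E_coe, E_coe] at h
      have h1 : b < a := by exact_mod_cast hcon
      have h2 := pow_lt_pow_right_of_lt_one₀ half_pos' half_lt h1
      exact absurd h (not_le.2 h2)

/-! ### the generic order -/

open Classical in
/-- the order along `z = c` near `(c, d)` -/
noncomputable def gord (c d : ℂ) (g : ℂ × ℂ → ℂ) : ℕ∞ :=
  if h : ∃ j : ℕ, ∀ᶠ w in 𝓝[≠] d, analyticOrderAt (fun z => g (z, w)) c = j then
    ((Classical.choose h : ℕ) : ℕ∞) else ⊤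

variable {f g : ℂ × ℂ → ℂ} {W : Set (ℂ × ℂ)} {c d : ℂ}

theorem gord_spec (hW : IsOpen W) (hg : AnalyticOnNhd ℂ g W) (hp : (c, d) ∈ W) :
    ∀ᶠ w in 𝓝[≠] d, analyticOrderAt (fun z => g (z, w)) c = gord c d g := by
  by_cases h : ∃ j : ℕ, ∀ᶠ w in 𝓝[≠] d, analyticOrderAt (fun z => g (z, w)) c = j
  · have h1 := Classical.choose_spec h
    have h2 : gord c d g = ((Classical.choose h : ℕ) : ℕ∞) := by
      unfold gord; rw [dif_pos h]
    rw [h2]; exact h1
  · have h2 : gord c d g = ⊤ := by unfold gord; rw [dif_neg h]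
    rw [h2]
    obtain ⟨r, hr, h3⟩ := (exists_ord hW hg hp).resolve_left h
    have h4 : ∀ᶠ w in 𝓝[≠] d, w ∈ Metric.ball d r :=
      nhdsWithin_le_nhds (Metric.ball_mem_nhds d hr)
    filter_upwards [h4] with w hw using (h3 w hw).2

theorem gord_unique (hW : IsOpen W) (hg : AnalyticOnNhd ℂ g W) (hp : (c, d) ∈ W) {n : ℕ∞}
    (h : ∀ᶠ w in 𝓝[≠] d, analyticOrderAt (fun z => g (z, w)) c = n) : gord c d g = n := by
  obtain ⟨w, h1, h2⟩ := ((gord_spec hW hg hp).and h).exists
  rw [← h1, h2]

theorem near_W (hW : IsOpen W) (hp : (c, d) ∈ W) : ∀ᶠ w in 𝓝[≠] d, (c, w) ∈ W :=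
  nhdsWithin_le_nhds (near_snd hW hp)

theorem gord_mul (hW : IsOpen W) (hf : AnalyticOnNhd ℂ f W) (hg : AnalyticOnNhd ℂ g W)
    (hp : (c, d) ∈ W) : gord c d (f * g) = gord c d f + gord c d g := by
  refine gord_unique hW (hf.mul hg) hp ?_
  filter_upwards [gord_spec hW hf hp, gord_spec hW hg hp, near_W hW hp] with w h1 h2 h3
  rw [← h1, ← h2]
  exact analyticOrderAt_mul (slice_analytic (hf _ h3)) (slice_analytic (hg _ h3))

theorem gord_add (hW : IsOpen W) (hf : AnalyticOnNhd ℂ f W) (hg : AnalyticOnNhd ℂ g W)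
    (hp : (c, d) ∈ W) : min (gord c d f) (gord c d g) ≤ gord c d (f + g) := by
  obtain ⟨w, h1, h2, h3, h4⟩ := ((gord_spec hW hf hp).and ((gord_spec hW hg hp).and
    ((gord_spec hW (hf.add hg) hp).and (near_W hW hp)))).exists
  rw [← h1, ← h2, ← h3]
  exact le_analyticOrderAt_add

theorem gord_congr (hW : IsOpen W) (hf : AnalyticOnNhd ℂ f W) (hg : AnalyticOnNhd ℂ g W)
    (hp : (c, d) ∈ W) (h : ∀ x ∈ W, f x = g x) : gord c d f = gord c d g := by
  refine gord_unique hW hf hp ?_
  filter_upwards [gord_spec hW hg hp, near_W hW hp] with w h1 h2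
  rw [← h1]
  apply analyticOrderAt_congr
  filter_upwards [near_fst hW h2] with z hz using h _ hz

theorem gord_top (hW : IsOpen W) (hW' : IsPreconnected W) (hf : AnalyticOnNhd ℂ f W)
    (hp : (c, d) ∈ W) (h : gord c d f = ⊤) : ∀ p ∈ W, f p = 0 := by
  rcases exists_ord hW hf hp with ⟨j, hj⟩ | h1
  · rw [gord_unique hW hf hp hj] at h
    exact absurd h (ENat.natCast_ne_top j)
  · exact zero_of_top hW hW' hf hp h1

theorem gord_zero (hW : IsOpen W) (hp : (c, d) ∈ W) : gord c d 0 = ⊤ := by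
  have h0 : AnalyticOnNhd ℂ (0 : ℂ × ℂ → ℂ) W := analyticOnNhd_const
  refine gord_unique hW h0 hp (Eventually.of_forall fun w => ?_)
  rw [analyticOrderAt_eq_top]
  exact Eventually.of_forall fun z => rfl

theorem gord_one (hW : IsOpen W) (hp : (c, d) ∈ W) : gord c d 1 = 0 := by
  have h0 : AnalyticOnNhd ℂ (1 : ℂ × ℂ → ℂ) W := analyticOnNhd_const
  refine gord_unique hW h0 hp (Eventually.of_forall fun w => ?_)
  rw [analyticOrderAt_eq_zero]
  right
  exact one_ne_zero

/-! ### the valuation -/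

/-- an extension of a function in the ring -/
noncomputable def ext (f : holomorphicRing W) : ℂ × ℂ → ℂ := Classical.choose f.2

theorem ext_analytic (f : holomorphicRing W) : AnalyticOnNhd ℂ (ext f) W :=
  (Classical.choose_spec f.2).1

theorem ext_eq (f : holomorphicRing W) (x : W) : f.1 x = ext f x :=
  (Classical.choose_spec f.2).2 x

theorem gord_ext (hW : IsOpen W) (hp : (c, d) ∈ W) (f : holomorphicRing W)
    (hg : AnalyticOnNhd ℂ g W) (h : ∀ x : W, f.1 x = g x) : gord c d (ext f) = gord c d g :=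
  gord_congr hW (ext_analytic f) hg hp fun x hx => by rw [← h ⟨x, hx⟩, ext_eq f ⟨x, hx⟩]

/-- the valuation along `z = c` near `(c, d)` -/
noncomputable def val (hW : IsOpen W) (hp : (c, d) ∈ W) : Valuation (holomorphicRing W) ℝ≥0 where
  toFun f := E (gord c d (ext f))
  map_zero' := by
    rw [gord_ext hW hp 0 (g := 0) analyticOnNhd_const fun x => rfl, gord_zero hW hp, E_top]
  map_one' := by
    rw [gord_ext hW hp 1 (g := 1) analyticOnNhd_const fun x => rfl, gord_one hW hp]
    exact (E_coe 0).trans (pow_zero _)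
  map_mul' a b := by
    rw [gord_ext hW hp (a * b) (g := ext a * ext b) ((ext_analytic a).mul (ext_analytic b)) (fun x => by
      change a.1 x * b.1 x = ext a x * ext b x
      rw [ext_eq, ext_eq]), gord_mul hW (ext_analytic a) (ext_analytic b) hp, E_add]
  map_add_le_max' a b := by
    rw [gord_ext hW hp (a + b) (g := ext a + ext b) ((ext_analytic a).add (ext_analytic b)) (fun x => by
      change a.1 x + b.1 x = ext a x + ext b x
      rw [ext_eq, ext_eq])]
    have h := gord_add hW (ext_analytic a) (ext_analytic b) hp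
    rcases min_choice (gord c d (ext a)) (gord c d (ext b)) with h1 | h1
    · rw [h1] at h
      exact (E_anti h).trans (le_max_left _ _)
    · rw [h1] at h
      exact (E_anti h).trans (le_max_right _ _)

theorem val_apply (hW : IsOpen W) (hp : (c, d) ∈ W) (f : holomorphicRing W) :
    val hW hp f = E (gord c d (ext f)) := rfl

theorem val_eq (hW : IsOpen W) (hp : (c, d) ∈ W) (f : holomorphicRing W)
    (hg : AnalyticOnNhd ℂ g W) (h : ∀ x : W, f.1 x = g x) : val hW hp f = E (gord c d g) := by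
  rw [val_apply, gord_ext hW hp f hg h]

theorem val_zero (hW : IsOpen W) (hW' : IsPreconnected W) (hp : (c, d) ∈ W)
    (f : holomorphicRing W) (h : val hW hp f = 0) : f = 0 := by
  have h1 := gord_top hW hW' (ext_analytic f) hp (E_eq_zero h)
  apply Subtype.ext
  funext x
  rw [ext_eq f x]
  exact h1 x x.2

theorem val_pow (hW : IsOpen W) (hW' : IsPreconnected W) (hp : (c, d) ∈ W)
    (f : holomorphicRing W) (h : f ≠ 0) : ∃ k : ℕ, val hW hp f = (1 / 2) ^ k ∧
      gord c d (ext f) = k := by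
  rcases hn : gord c d (ext f) with _ | k
  · exfalso
    apply h
    apply val_zero hW hW' hp
    rw [val_apply, hn]
    exact E_top
  · exact ⟨k, by rw [val_apply, hn]; exact E_coe k, rfl⟩

end Pool.Agent.U166.NF.CX
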